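import Mathlib
import Pool.Agent.H270R2.GEN.Defs

/-! ROOM GEN, task MIX: Pauli strings form good families. -/

set_option autoImplicit false

open scoped ComplexOrder Topology BoundedContinuousFunction
open Filter

noncomputable section

namespace Pool.Agent.H270G.T_MIX

open Pool.Agent.H467F Pool.Agent.H735G Pool.Agent.H270G

variable {A : Type} [CStarAlgebra A] {τ : A →ₗ[ℂ] ℂ}

/-- the four Pauli elements of a pair -/
def sig (S T : A) : Fin 4 → A := ![1, S, T, Complex.I • (S * T)]

section pair

variable {S T : A}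

lemma sig_star (hs : star S = S) (ht : star T = T) (h : S * T = -(T * S)) (a : Fin 4) :
    star (sig S T a) = sig S T a := by
  fin_cases a
  · simp [sig]
  · simp [sig, hs]
  · simp [sig, ht]
  · simp only [sig, Fin.reduceFinMk, Matrix.cons_val]
    rw [star_smul, star_mul, hs, ht, h]
    simp

lemma sig_sq (h1 : S * S = 1) (h2 : T * T = 1) (h : S * T = -(T * S)) (a : Fin 4) :
    sig S T a * sig S T a = 1 := by
  fin_cases a
  · simp [sig]
  · simp [sig, h1]
  · simp [sig, h2]
  · simp only [sig, Fin.reduceFinMk, Matrix.cons_val]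
    rw [smul_mul_smul_comm, Complex.I_mul_I]
    have e : S * T * (S * T) = -1 := by
      calc S * T * (S * T) = S * T * (-(T * S)) := by rw [h]
        _ = -(S * (T * T) * S) := by noncomm_ring
        _ = -1 := by rw [h2, mul_one, h1]
    rw [e]
    simp

lemma sig_comm {y : A} (h1 : S * y = y * S) (h2 : T * y = y * T) (a : Fin 4) :
    sig S T a * y = y * sig S T a := by
  fin_cases a
  · simp [sig]
  · simpa [sig] using h1
  · simpa [sig] using h2
  · simp only [sig, Fin.reduceFinMk, Matrix.cons_val]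
    rw [smul_mul_assoc, mul_smul_comm, mul_assoc, h2, ← mul_assoc, h1, mul_assoc]

lemma sig_anti (h1 : S * S = 1) (h2 : T * T = 1) (h : S * T = -(T * S)) (a b : Fin 4)
    (hab : a ≠ b) :
    S * (sig S T a * sig S T b) = -(sig S T a * sig S T b * S) ∨
    T * (sig S T a * sig S T b) = -(sig S T a * sig S T b * T) := by
  have e1 : ∀ x, S * (S * x) = x := fun x => by rw [← mul_assoc, h1, one_mul]
  have e2 : ∀ x, T * (T * x) = x := fun x => by rw [← mul_assoc, h2, one_mul]
  have e3 : T * S = -(S * T) := by rw [h, neg_neg]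
  have e4 : ∀ x, T * (S * x) = -(S * (T * x)) := fun x => by
    rw [← mul_assoc, e3, neg_mul, mul_assoc]
  fin_cases a <;> fin_cases b <;>
    first
    | exact absurd rfl hab
    | (left
       simp only [sig, Fin.zero_eta, Fin.mk_one, Fin.reduceFinMk, Matrix.cons_val, Matrix.cons_val_zero,
         Matrix.cons_val_one, one_mul, mul_one, mul_assoc, h1, h2, e1, e2, e3, e4, mul_neg, neg_mul,
         neg_neg, smul_mul_assoc, mul_smul_comm, smul_neg]
       done)
    | (right
       simp only [sig, Fin.zero_eta, Fin.mk_one, Fin.reduceFinMk, Matrix.cons_val, Matrix.cons_val_zero,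
         Matrix.cons_val_one, one_mul, mul_one, mul_assoc, h1, h2, e1, e2, e3, e4, mul_neg, neg_mul,
         neg_neg, smul_mul_assoc, mul_smul_comm, smul_neg]
       done)

end pair

lemma s_mem_NN (s t : ℕ → A) (k : ℕ) : s k ∈ NN s t :=
  StarSubalgebra.le_topologicalClosure _ (StarAlgebra.subset_adjoin ℂ _ (Or.inl ⟨k, rfl⟩))

lemma t_mem_NN (s t : ℕ → A) (k : ℕ) : t k ∈ NN s t :=
  StarSubalgebra.le_topologicalClosure _ (StarAlgebra.subset_adjoin ℂ _ (Or.inr ⟨k, rfl⟩))

lemma sig_mem_NN (s t : ℕ → A) (k : ℕ) (a : Fin 4) : sig (s k) (t k) a ∈ NN s t := by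
  fin_cases a
  · simpa [sig] using one_mem (NN s t)
  · simpa [sig] using s_mem_NN s t k
  · simpa [sig] using t_mem_NN s t k
  · simp only [sig, Fin.reduceFinMk, Matrix.cons_val]
    exact SMulMemClass.smul_mem _ (mul_mem (s_mem_NN s t k) (t_mem_NN s t k))

/-- the family of Pauli strings of length `k` -/
structure PS (s t : ℕ → A) (k : ℕ) (G : Type) [Fintype G] (V : G → A) : Prop where
  card : Fintype.card G = 4 ^ k
  mem : ∀ g, V g ∈ NN s t
  st : ∀ g, star (V g) = V g
  sq : ∀ g, V g * V g = 1
  comm : ∀ g, ∀ j, k ≤ j → s j * V g = V g * s j ∧ t j * V g = V g * t j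
  avg : ∀ x, ((4 : ℂ) ^ k)⁻¹ • ∑ g, V g * x * V g = av s t k x
  anti : ∀ g h, g ≠ h → ∃ w : A, star w = w ∧ w * w = 1 ∧
    w * (V g * V h) = -((V g * V h) * w) ∧ ∀ j, k ≤ j → s j * w = w * s j ∧ t j * w = w * t j

lemma exists_PS (s t : ℕ → A) (hp : ∀ K, PauK s t K) (k : ℕ) :
    ∃ (G : Type) (_ : Fintype G) (_ : Nonempty G) (V : G → A), PS s t k G V := by
  induction k with
  | zero =>
    refine ⟨Unit, inferInstance, inferInstance, fun _ => 1, ⟨by simp, ?_, ?_, ?_, ?_, ?_, ?_⟩⟩
    · intro g; exact one_mem _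
    · intro g; simp
    · intro g; simp
    · intro g j _; simp
    · intro x; simp [av]
    · intro g h hgh; exact absurd (Subsingleton.elim g h) hgh
  | succ k ih =>
    obtain ⟨G, iG, nG, V, hV⟩ := ih
    -- facts on the new pair
    have hp1 := hp (k + 1)
    have f1 := hp1.ss k (Nat.lt_succ_self k)
    have f2 := hp1.s1 k (Nat.lt_succ_self k)
    have f3 := hp1.ts k (Nat.lt_succ_self k)
    have f4 := hp1.t1 k (Nat.lt_succ_self k)
    have f5 := hp1.anti k (Nat.lt_succ_self k)
    have hsj : ∀ j, k + 1 ≤ j → s k * s j = s j * s k ∧ t k * s j = s j * t k ∧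
        s k * t j = t j * s k ∧ t k * t j = t j * t k := by
      intro j hj
      have hj1 : k < j + 1 := by omega
      have hj2 : j < j + 1 := Nat.lt_succ_self j
      have hne : j ≠ k := by omega
      exact ⟨(hp (j + 1)).css k hj1 j hj2, ((hp (j + 1)).cst j hj2 k hj1 hne).symm,
        (hp (j + 1)).cst k hj1 j hj2 hne.symm, (hp (j + 1)).ctt k hj1 j hj2⟩
    have hcV : ∀ g a, sig (s k) (t k) a * V g = V g * sig (s k) (t k) a := fun g a =>
      sig_comm (hV.comm g k le_rfl).1 (hV.comm g k le_rfl).2 a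
    refine ⟨G × Fin 4, inferInstance, inferInstance, fun p => V p.1 * sig (s k) (t k) p.2,
      ⟨?_, ?_, ?_, ?_, ?_, ?_, ?_⟩⟩
    · rw [Fintype.card_prod, hV.card, Fintype.card_fin, pow_succ]
    · intro p; exact mul_mem (hV.mem p.1) (sig_mem_NN s t k p.2)
    · intro p
      rw [star_mul, sig_star f1 f3 f5, hV.st, hcV]
    · intro p
      calc V p.1 * sig (s k) (t k) p.2 * (V p.1 * sig (s k) (t k) p.2)
          = V p.1 * (sig (s k) (t k) p.2 * V p.1) * sig (s k) (t k) p.2 := by noncomm_ring
        _ = V p.1 * (V p.1 * sig (s k) (t k) p.2) * sig (s k) (t k) p.2 := by rw [hcV]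
        _ = (V p.1 * V p.1) * (sig (s k) (t k) p.2 * sig (s k) (t k) p.2) := by noncomm_ring
        _ = 1 := by rw [hV.sq, sig_sq f2 f4 f5, one_mul]
    · intro p j hj
      obtain ⟨g1, g2, g3, g4⟩ := hsj j hj
      have c1 := sig_comm (y := s j) g1 g2 p.2
      have c2 := sig_comm (y := t j) g3 g4 p.2
      obtain ⟨d1, d2⟩ := hV.comm p.1 j (by omega)
      constructor
      · rw [← mul_assoc, d1, mul_assoc, ← c1, ← mul_assoc]
      · rw [← mul_assoc, d2, mul_assoc, ← c2, ← mul_assoc]
    · intro x
      have key : ∀ a, ∑ g, V g * sig (s k) (t k) a * x * (V g * sig (s k) (t k) a)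
          = sig (s k) (t k) a * (∑ g, V g * x * V g) * sig (s k) (t k) a := by
        intro a
        rw [Finset.mul_sum, Finset.sum_mul]
        refine Finset.sum_congr rfl fun g _ => ?_
        calc V g * sig (s k) (t k) a * x * (V g * sig (s k) (t k) a)
            = (sig (s k) (t k) a * V g) * x * (V g * sig (s k) (t k) a) := by rw [hcV]
          _ = _ := by simp only [mul_assoc]
      rw [Fintype.sum_prod_type_right]
      simp only
      rw [Fin.sum_univ_four, key, key, key, key]
      have e1 : ((4 : ℂ) ^ (k + 1))⁻¹ = 4⁻¹ * ((4 : ℂ) ^ k)⁻¹ := by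
        rw [pow_succ, mul_inv, mul_comm]
      rw [e1, mul_smul, av, ← hV.avg x]
      congr 1
      simp only [smul_add]
      congr 1
      · congr 1
        · congr 1
          · simp [sig]
          · simp [sig, mul_smul_comm, smul_mul_assoc]
        · simp [sig, mul_smul_comm, smul_mul_assoc]
      · simp only [sig, Matrix.cons_val]
        have e2 : t k * s k = -(s k * t k) := by rw [f5, neg_neg]
        rw [e2]
        simp only [smul_mul_assoc, mul_smul_comm, mul_neg, smul_smul]
        rw [← smul_neg, mul_comm Complex.I Complex.I, ← mul_assoc]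
        rw [mul_comm (((4 : ℂ) ^ k)⁻¹) Complex.I, mul_assoc, mul_comm (((4 : ℂ) ^ k)⁻¹) Complex.I,
          ← mul_assoc, Complex.I_mul_I]
        simp
    · rintro ⟨g, a⟩ ⟨h, b⟩ hne
      simp only
      by_cases hgh : g = h
      · subst hgh
        have hab : a ≠ b := by
          intro e; apply hne; rw [e]
        have e1 : V g * sig (s k) (t k) a * (V g * sig (s k) (t k) b)
            = sig (s k) (t k) a * sig (s k) (t k) b := by
          calc V g * sig (s k) (t k) a * (V g * sig (s k) (t k) b)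
              = V g * (sig (s k) (t k) a * V g) * sig (s k) (t k) b := by noncomm_ring
            _ = V g * (V g * sig (s k) (t k) a) * sig (s k) (t k) b := by rw [hcV]
            _ = (V g * V g) * (sig (s k) (t k) a * sig (s k) (t k) b) := by noncomm_ring
            _ = _ := by rw [hV.sq, one_mul]
        rw [e1]
        rcases sig_anti f2 f4 f5 a b hab with h6 | h6
        · exact ⟨s k, f1, f2, h6, fun j hj => ⟨(hsj j hj).1.symm, (hsj j hj).2.2.1.symm⟩⟩
        · exact ⟨t k, f3, f4, h6, fun j hj => ⟨(hsj j hj).2.1.symm, (hsj j hj).2.2.2.symm⟩⟩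
      · obtain ⟨w, w1, w2, w3, w4⟩ := hV.anti g h hgh
        refine ⟨w, w1, w2, ?_, fun j hj => w4 j (by omega)⟩
        have cw : ∀ a, sig (s k) (t k) a * w = w * sig (s k) (t k) a := fun a =>
          sig_comm (w4 k le_rfl).1 (w4 k le_rfl).2 a
        calc w * (V g * sig (s k) (t k) a * (V h * sig (s k) (t k) b))
            = w * (V g * (sig (s k) (t k) a * V h) * sig (s k) (t k) b) := by noncomm_ring
          _ = w * (V g * (V h * sig (s k) (t k) a) * sig (s k) (t k) b) := by rw [hcV]
          _ = (w * (V g * V h)) * (sig (s k) (t k) a * sig (s k) (t k) b) := by noncomm_ring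
          _ = -((V g * V h) * (w * sig (s k) (t k) a) * sig (s k) (t k) b) := by
              rw [w3]; noncomm_ring
          _ = -((V g * V h) * (sig (s k) (t k) a * w) * sig (s k) (t k) b) := by rw [cw]
          _ = -((V g * V h) * sig (s k) (t k) a * (w * sig (s k) (t k) b)) := by noncomm_ring
          _ = -((V g * V h) * sig (s k) (t k) a * (sig (s k) (t k) b * w)) := by rw [cw]
          _ = -(V g * (V h * sig (s k) (t k) a) * sig (s k) (t k) b * w) := by noncomm_ring
          _ = -(V g * (sig (s k) (t k) a * V h) * sig (s k) (t k) b * w) := by rw [hcV]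
          _ = _ := by noncomm_ring

lemma EZ_anti (hE : EZP τ) {P w : A} (w1 : star w = w) (w2 : w * w = 1) (w3 : w * P = -(P * w)) :
    EZ τ P = 0 := by
  let u : unitary A := ⟨w, by rw [Unitary.mem_iff, w1]; exact ⟨w2, w2⟩⟩
  have h1 := hE.conj u P
  have h2 : (u : A) * P * star (u : A) = (-1 : ℂ) • P := by
    show w * P * star w = _
    rw [w1, w3, neg_mul, mul_assoc, w2, mul_one, neg_one_smul]
  rw [h2, hE.smul, neg_one_smul] at h1
  have h3 : (2 : ℂ) • EZ τ P = 0 := by
    rw [two_smul]
    nth_rewrite 1 [← h1]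
    exact neg_add_cancel _
  exact (smul_eq_zero.1 h3).resolve_left two_ne_zero

lemma bessel (h : TW τ) (hE : EZP τ) {G : Type} [Fintype G] (V : G → A)
    (hs : ∀ g, star (V g) = V g) (h1 : ∀ g, V g * V g = 1)
    (ho : ∀ g g', g ≠ g' → EZ τ (V g * V g') = 0) (x : A) :
    ∑ g, n2 τ (EZ τ (V g * x)) ^ 2 ≤ n2 τ x ^ 2 := by
  classical
  set z : G → A := fun g => EZ τ (V g * x) with hz
  have zc : ∀ g y, z g * y = y * z g := fun g y => hE.comm _ y
  have zc' : ∀ g y, star (z g) * y = y * star (z g) := by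
    intro g y
    have := congrArg star (zc g (star y))
    rw [star_mul, star_mul, star_star] at this
    exact this.symm
  set y : A := ∑ g, V g * z g with hy
  set S : ℝ := ∑ g, n2 τ (z g) ^ 2 with hS
  have e1 : τ (star y * x) = (S : ℂ) := by
    rw [hy, star_sum, Finset.sum_mul, map_sum, hS]
    push_cast
    refine Finset.sum_congr rfl fun g _ => ?_
    rw [star_mul, hs, mul_assoc, ← hE.trace, hE.left _ _ (zc' g)]
    have := h.n2_sq' (z g)
    push_cast at this
    exact this
  have e2 : τ (star x * y) = (S : ℂ) := by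
    have := h.conj (star y * x)
    rw [star_mul, star_star, e1] at this
    rw [this]
    simp
  have e3 : τ (star y * y) = (S : ℂ) := by
    rw [hy, star_sum, Finset.sum_mul, map_sum, hS]
    push_cast
    refine Finset.sum_congr rfl fun g _ => ?_
    rw [Finset.mul_sum, map_sum, Finset.sum_eq_single g]
    · have : star (V g * z g) * (V g * z g) = star (z g) * (V g * V g) * z g := by
        rw [star_mul, hs]; noncomm_ring
      rw [this, h1, mul_one]
      have := h.n2_sq' (z g)
      push_cast at this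
      exact this
    · intro g' _ hne
      have : star (V g * z g) * (V g' * z g') = (star (z g) * z g') * (V g * V g') := by
        rw [star_mul, hs]
        calc star (z g) * V g * (V g' * z g') = star (z g) * (V g * V g' * z g') := by noncomm_ring
          _ = star (z g) * (z g' * (V g * V g')) := by rw [zc g']
          _ = _ := by noncomm_ring
      rw [this, ← hE.trace, hE.left, ho g g' hne.symm, mul_zero, map_zero]
      intro u
      rw [mul_assoc, zc g', ← mul_assoc, zc' g, mul_assoc]
    · intro hg; exact absurd (Finset.mem_univ g) hg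
  have e4 : 0 ≤ n2 τ (x - y) ^ 2 := by positivity
  rw [h.n2_sq] at e4
  have e5 : star (x - y) * (x - y) = star x * x - star x * y - star y * x + star y * y := by
    rw [star_sub]; noncomm_ring
  rw [e5, map_add, map_sub, map_sub, e1, e2, e3, Complex.add_re, Complex.sub_re, Complex.sub_re,
    Complex.ofReal_re, ← h.n2_sq] at e4
  linarith

/-- MIX: the Pauli strings form good families. -/
theorem mixing (hE : EZP τ) (h : TW τ) (s t : ℕ → A) (hp : ∀ K, PauK s t K)
    (hl : ∀ y, Tendsto (fun k => n2 τ (av s t k y - EZ τ y)) atTop (𝓝 0)) :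
    Mixing τ (NN s t) := by
  intro Y ε hε
  have h1 : ∀ᶠ k in atTop, ∀ x ∈ Y, n2 τ (av s t k x - EZ τ x) ≤ ε := by
    rw [Filter.eventually_all_finset]
    intro x _
    exact (hl x).eventually_le_const hε
  have h2 : ∀ᶠ k : ℕ in atTop, ∀ x ∈ Y, ((4 : ℝ) ^ k)⁻¹ * n2 τ x ^ 2 ≤ ε := by
    rw [Filter.eventually_all_finset]
    intro x _
    have : Tendsto (fun k : ℕ => ((4 : ℝ) ^ k)⁻¹ * n2 τ x ^ 2) atTop (𝓝 0) := by
      have h3 : Tendsto (fun k : ℕ => ((4 : ℝ)⁻¹) ^ k) atTop (𝓝 0) :=
        tendsto_pow_atTop_nhds_zero_of_lt_one (by norm_num) (by norm_num)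
      have h4 := h3.mul_const (n2 τ x ^ 2)
      rw [zero_mul] at h4
      refine h4.congr fun k => ?_
      rw [inv_pow]
    exact this.eventually_le_const hε
  obtain ⟨k, hk1, hk2⟩ := (h1.and h2).exists
  obtain ⟨G, iG, nG, V, hV⟩ := exists_PS s t hp k
  refine ⟨G, iG, nG, V, fun g => ⟨hV.mem g, hV.st g, hV.sq g⟩, ?_, ?_⟩
  · intro x hx
    rw [hV.card]
    push_cast
    rw [hV.avg x]
    exact hk1 x hx
  · intro x hx
    rw [hV.card]
    push_cast
    have h5 := bessel h hE V hV.st hV.sq (fun g g' hne => by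
      obtain ⟨w, w1, w2, w3, _⟩ := hV.anti g g' hne
      exact EZ_anti hE w1 w2 w3) x
    calc ((4 : ℝ) ^ k)⁻¹ * ∑ g, n2 τ (EZ τ (V g * x)) ^ 2 ≤ ((4 : ℝ) ^ k)⁻¹ * n2 τ x ^ 2 := by
          gcongr
      _ ≤ ε := hk2 x hx

end Pool.Agent.H270G.T_MIX
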